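import Pool.Agent.Q189.BI6

/-! MP_e9cb08_gt, Q1 (proof): for all `n ≥ 3`, every nonnegative convex function `h` on
`ℝ^(n-1)` and every compact convex set `C`,
`∫_{∂C} (|y|² + h²) dH^(n-2) ≥ 2/(n-1) ∫_C h √(1 + |∇h|²)`. -/

set_option autoImplicit false

namespace Pool.Agent.Results.MP_e9cb08_gt.BoundaryInequality

open MeasureTheory Set

theorem result (n : ℕ) (hn : 3 ≤ n) (h : EuclideanSpace ℝ (Fin (n - 1)) → ℝ)
    (hconv : ConvexOn ℝ univ h) (hnonneg : ∀ y, 0 ≤ h y)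
    (C : Set (EuclideanSpace ℝ (Fin (n - 1)))) (hC : IsCompact C) (hCconv : Convex ℝ C) :
    ENNReal.ofReal (2 / ((n : ℝ) - 1)) *
        ∫⁻ z in C, ENNReal.ofReal (h z * √(1 + ‖gradient h z‖ ^ 2)) ≤
      ∫⁻ y in frontier C, ENNReal.ofReal (‖y‖ ^ 2 + h y ^ 2) ∂μHE[n - 2] := by
  have h1 := Pool.Agent.Q189.BI.main (m := n - 1) (by omega) h hconv hnonneg C hC hCconv
  have h2 : ((n - 1 : ℕ) : ℝ) = (n : ℝ) - 1 := by
    rw [Nat.cast_sub (by omega)]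
    simp
  have h3 : n - 1 - 1 = n - 2 := by omega
  rw [h2, h3] at h1
  exact h1

end Pool.Agent.Results.MP_e9cb08_gt.BoundaryInequality
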